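import Pool.Agent.P.MP_8598be_al.Z.Final

/-! The conjecture of Lee and Voll for all pairs. -/

open Pool.Agent.P.MP_8598be_al in
theorem Pool.Agent.Results.MP_8598be_al.Full.result (c d : ℕ) (hd : 2 ≤ d)
    (W : RatXY) (hW : Uniform c d W) : ∃ v : ℚ, 0 < v ∧ BothValues (rk c d) W v :=
  Z.full hd hW
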